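import Mathlib
import Pool.Agent.Lib.MP_95e7ec_an.Defs

/-!
# From `hilbertNumber` to the frozen statement

If the Hilbert numbers exceed `K n ^ 3` for arbitrarily large `n`, for every `K`, then the Hilbert
numbers are not `O(n ^ 3)`, in the literal form of the frozen statement.
-/

set_option autoImplicit false

open Set

namespace Pool.Agent.Lib.MP_95e7ec_an.Hn

/-- The bound by a number `M`: if every system of degree at most `n` has at most `K n ^ 3 < M`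
limit cycles then `hilbertNumber n < M`. -/
theorem hilbertNumber_lt {n M : ℕ} {B : ℝ} (hB : B < M)
    (h : ∀ P Q : MvPolynomial (Fin 2) ℝ, P.totalDegree ≤ n → Q.totalDegree ≤ n →
      ∃ S : Finset (Set (ℝ × ℝ)), (S.card : ℝ) ≤ B ∧
        ∀ C : Set (ℝ × ℝ), IsLimitCycle (vf P Q) C → C ∈ S) :
    hilbertNumber n < (M : ℕ∞) := by
  have hM : 0 < M := by
    obtain ⟨S, hS, -⟩ := h 0 0 (by simp) (by simp)
    have h1 : (0 : ℝ) ≤ S.card := Nat.cast_nonneg _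
    have h2 : (0 : ℝ) < M := lt_of_le_of_lt (h1.trans hS) hB
    exact_mod_cast h2
  have hle : hilbertNumber n ≤ ((M - 1 : ℕ) : ℕ∞) := by
    unfold hilbertNumber
    refine iSup_le fun P => iSup_le fun Q => iSup_le fun hP => iSup_le fun hQ => ?_
    obtain ⟨S, hS, hC⟩ := h P Q hP hQ
    have h1 : {C | IsLimitCycle (vf P Q) C} ⊆ (S : Set (Set (ℝ × ℝ))) := fun C hc => hC C hc
    refine (Set.encard_le_encard h1).trans ?_
    rw [Set.encard_coe_eq_coe_finsetCard]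
    have h2 : (S.card : ℝ) < M := lt_of_le_of_lt hS hB
    have h3 : S.card < M := by exact_mod_cast h2
    exact_mod_cast (by omega : S.card ≤ M - 1)
  refine lt_of_le_of_lt hle ?_
  exact_mod_cast (by omega : M - 1 < M)

/-- The Hilbert numbers are not `O(n ^ 3)`. -/
theorem not_cubic' (h : ∀ (K : ℝ) (N : ℕ), ∃ n : ℕ, N ≤ n ∧ ∃ M : ℕ, K * (n : ℝ) ^ 3 < M ∧
      (M : ℕ∞) ≤ hilbertNumber n) :
    ¬ (∃ K : ℝ, ∃ N : ℕ, ∀ n : ℕ, N ≤ n → ∀ P Q : MvPolynomial (Fin 2) ℝ,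
      P.totalDegree ≤ n → Q.totalDegree ≤ n →
      ∃ S : Finset (Set (ℝ × ℝ)), (S.card : ℝ) ≤ K * (n : ℝ) ^ 3 ∧
        ∀ C : Set (ℝ × ℝ), IsLimitCycle (vf P Q) C → C ∈ S) := by
  rintro ⟨K, N, hK⟩
  obtain ⟨n, hn, M, hM, hle⟩ := h K N
  exact absurd hle (not_le.2 (hilbertNumber_lt hM (hK n hn)))

/-- The Hilbert numbers are not `O(n ^ 3)`, in the literal form of the frozen statement. -/
theorem not_cubic (h : ∀ (K : ℝ) (N : ℕ), ∃ n : ℕ, N ≤ n ∧ ∃ M : ℕ, K * (n : ℝ) ^ 3 < M ∧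
      (M : ℕ∞) ≤ hilbertNumber n) :
    ¬ (∃ K : ℝ, ∃ N : ℕ, ∀ n : ℕ, N ≤ n → ∀ P Q : MvPolynomial (Fin 2) ℝ,
      P.totalDegree ≤ n → Q.totalDegree ≤ n →
      ∃ S : Finset (Set (ℝ × ℝ)), (S.card : ℝ) ≤ K * (n : ℝ) ^ 3 ∧
        ∀ C : Set (ℝ × ℝ),
          ((∃ γ : ℝ → ℝ × ℝ, ∃ T : ℝ, 0 < T ∧
              (∀ t : ℝ, HasDerivAt γ
                (MvPolynomial.eval ![(γ t).1, (γ t).2] P,
                 MvPolynomial.eval ![(γ t).1, (γ t).2] Q) t) ∧
              (∀ t : ℝ, γ (t + T) = γ t) ∧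
              (∃ s t : ℝ, γ s ≠ γ t) ∧
              C = Set.range γ) ∧
           ∃ U : Set (ℝ × ℝ), IsOpen U ∧ C ⊆ U ∧
             ∀ C' : Set (ℝ × ℝ),
               (∃ γ : ℝ → ℝ × ℝ, ∃ T : ℝ, 0 < T ∧
                  (∀ t : ℝ, HasDerivAt γ
                    (MvPolynomial.eval ![(γ t).1, (γ t).2] P,
                     MvPolynomial.eval ![(γ t).1, (γ t).2] Q) t) ∧
                  (∀ t : ℝ, γ (t + T) = γ t) ∧
                  (∃ s t : ℝ, γ s ≠ γ t) ∧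
                  C' = Set.range γ) →
               C' ⊆ U → C' = C) →
          C ∈ S) :=
  not_cubic' h

end Pool.Agent.Lib.MP_95e7ec_an.Hn
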