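import Pool.Agent.Lib.MP_95e7ec_an.Ww.Final
import Pool.Agent.Lib.MP_95e7ec_an.Ww.FinN
import Pool.Agent.Lib.MP_95e7ec_an.Dy.DMain
import Pool.Agent.Lib.MP_95e7ec_an.Pw.C2Main

/-!
# The Hilbert numbers grow faster than cubically

Assembly of the three parts: words with many alternations, realization of a word by a scalar
equation with trigonometric coefficients, transfer to a polynomial field of the plane.
-/

set_option autoImplicit false

open Set

namespace Pool.Agent.Lib.MP_95e7ec_an.Hn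

open Pool.Agent.MP95e7W

/-- A word with `L` letters and `N` alternations. -/
def HW (L N : ℕ) : Prop :=
  ∃ (l : List (ℝ × ℝ)) (z : ℕ → ℝ), l.length = L ∧ (∀ p ∈ l, 0 < p.1) ∧
    (∀ i j, i < j → z i < z j) ∧
    ∀ i ≤ N, 0 < z i ∧ Ok l (z i) ∧ 0 < (-1) ^ i * (wd l (z i) - z i)

/-- `N` alternations with `L` letters give `N ≤ H (7 k)` as soon as `8 L ≤ k ^ 2`. -/
theorem HW.le_hilbert {L N k : ℕ} (hk : 1 ≤ k) (hL : 8 * L ≤ k ^ 2) (h : HW L N) :
    (N : ℕ∞) ≤ hilbertNumber (7 * k) := by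
  obtain ⟨l, z, rfl, hpos, hmono, hz⟩ := h
  have hl : 1 ≤ l.length := by
    cases l with
    | nil =>
      exfalso
      have h0 := (hz 0 (Nat.zero_le _)).2.2
      rw [wd_nil, sub_self, mul_zero] at h0
      exact lt_irrefl _ h0
    | cons p l => exact Nat.succ_le_succ (Nat.zero_le _)
  obtain ⟨p, r, s, y, hp, hr, hs, h1, h2, h3⟩ := Dy.dyn_main l N z hl hpos
    (fun i hi => ⟨(hz i hi).1, (hz i hi).2.1⟩) (fun i _ => hmono i (i + 1) (Nat.lt_succ_self i))
    (fun i hi => (hz i hi).2.2)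
  exact Pw.partC2 k N hk p (fun _ => 0) r s (hp.mono hL) (Pw.IsTrig.const _ 0) (hr.mono hL)
    (hs.mono hL) y (fun i hi x hx => (h1 i hi x hx).2.2) h2 h3

/-- The Hilbert numbers exceed every multiple of the cube for arbitrarily large degrees. -/
theorem growth_cubic : ∀ A N : ℕ, ∃ n : ℕ, N ≤ n ∧ ∃ m : ℕ, (m : ℕ∞) ≤ hilbertNumber n ∧
    A * n ^ 3 < m := by
  obtain ⟨C, hC⟩ := Ww.words 2
  refine Ww.growth_of_words (R := HW) C C 2 (fun K hK => ?_) 8 7 0 1 (by norm_num)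
    (fun k L N hk hL h => ?_)
  · obtain ⟨N, l, z, h1, h2, h3, h4, h5⟩ := hC K hK
    exact ⟨l.length, N, h2, h1, l, z, rfl, h3, h4, h5⟩
  · exact h.le_hilbert hk hL

end Pool.Agent.Lib.MP_95e7ec_an.Hn
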