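import Mathlib

/-!
# Growth with every exponent below four

If for every `T` there are words with `L ≤ C K ^ (T + 1)` letters and `N ≥ K ^ (2 T + 1) / C`
alternations, and if `N` alternations with `L` letters give `N ≤ H (D k)` as soon as `d L ≤ k ^ 2`,
then `n ^ p ≤ H n` for all large `n`, for every `p < 4`.
-/

set_option autoImplicit false

open Filter

namespace Pool.Agent.Lib.MP_95e7ec_an.Hn

/-- The choice of `K` and `k` for a given `n`. -/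
theorem growth4_real (T C d D : ℕ) (hd : 1 ≤ d) (hD : 1 ≤ D) {p : ℝ}
    (hp : p * ((T : ℝ) + 1) < 4 * T + 2) :
    ∃ n0 : ℕ, ∀ n : ℕ, n0 ≤ n → ∃ K k : ℕ, 2 ≤ K ∧ 1 ≤ k ∧ D * k ≤ n ∧
      d * (C * K ^ (T + 1)) ≤ k ^ 2 ∧
      (n : ℝ) ^ p * ((C : ℝ) + 1) ≤ (K : ℝ) ^ (2 * T + 1) := by
  obtain ⟨M, hM⟩ : ∃ M : ℝ, M = 4 * (D : ℝ) ^ 2 * d * (C + 1) := ⟨_, rfl⟩
  have hd' : (1 : ℝ) ≤ d := by exact_mod_cast hd
  have hD' : (1 : ℝ) ≤ D := by exact_mod_cast hD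
  have hC' : (0 : ℝ) ≤ C := Nat.cast_nonneg _
  have hT' : (0 : ℝ) ≤ T := Nat.cast_nonneg _
  have hD2 : (1 : ℝ) ≤ (D : ℝ) ^ 2 := one_le_pow₀ hD'
  have hM4 : 4 ≤ M := by
    rw [hM]
    have h1 : (1 : ℝ) ≤ (D : ℝ) ^ 2 * d := by nlinarith
    nlinarith
  have hM0 : 0 < M := by linarith
  -- the exponents
  obtain ⟨e, he⟩ : ∃ e : ℝ, e = 2 / ((T : ℝ) + 1) := ⟨_, rfl⟩
  obtain ⟨q, hq⟩ : ∃ q : ℝ, q = e * (2 * T + 1) := ⟨_, rfl⟩
  have he0 : 0 < e := by rw [he]; positivity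
  have hpq : p < q := by
    rw [hq, he, div_mul_eq_mul_div, lt_div_iff₀ (by positivity)]
    linarith
  have t1 : Tendsto (fun n : ℕ => (n : ℝ) ^ e) atTop atTop :=
    (tendsto_rpow_atTop he0).comp tendsto_natCast_atTop_atTop
  have t2 : Tendsto (fun n : ℕ => (n : ℝ) ^ (q - p)) atTop atTop :=
    (tendsto_rpow_atTop (by linarith)).comp tendsto_natCast_atTop_atTop
  have e1 := t1.eventually_ge_atTop (2 * M)
  have e2 := t2.eventually_ge_atTop (((C : ℝ) + 1) * (2 * M) ^ (2 * T + 1))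
  obtain ⟨n0, hn0⟩ := eventually_atTop.1 (e1.and (e2.and (eventually_ge_atTop D)))
  refine ⟨n0, fun n hn => ?_⟩
  obtain ⟨h1, h2, h3⟩ := hn0 n hn
  have hn1 : 0 < n := by omega
  have hnr : (0 : ℝ) < n := by exact_mod_cast hn1
  obtain ⟨y, hy⟩ : ∃ y : ℝ, y = (n : ℝ) ^ e := ⟨_, rfl⟩
  rw [← hy] at h1
  have hy0 : 0 < y := by linarith
  have hyT : y ^ (T + 1) = (n : ℝ) ^ 2 := by
    rw [hy, ← Real.rpow_natCast, ← Real.rpow_mul hnr.le, ← Real.rpow_natCast]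
    congr 1
    rw [he]
    push_cast
    field_simp
  have hyq : y ^ (2 * T + 1) = (n : ℝ) ^ q := by
    rw [hy, ← Real.rpow_natCast, ← Real.rpow_mul hnr.le]
    congr 1
    rw [hq]
    push_cast
    ring
  -- the number `K`
  obtain ⟨K, hK⟩ : ∃ K : ℕ, K = ⌊y / M⌋₊ := ⟨_, rfl⟩
  have hyM : 2 ≤ y / M := by
    rw [le_div_iff₀ hM0]
    linarith
  have hK1 : (K : ℝ) ≤ y / M := by
    rw [hK]
    exact Nat.floor_le (by positivity)
  have hK2 : y / M < K + 1 := by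
    rw [hK]
    exact Nat.lt_floor_add_one _
  have hK3 : 2 ≤ K := by
    rw [hK]
    exact Nat.le_floor (by exact_mod_cast hyM)
  have hK4 : y / (2 * M) ≤ K := by
    have h4 : y / (2 * M) = y / M / 2 := by
      rw [div_div, mul_comm]
    rw [h4]
    linarith
  -- the number `k`
  obtain ⟨k, hk⟩ : ∃ k : ℕ, k = n / D := ⟨_, rfl⟩
  have hk1 : 1 ≤ k := by
    rw [hk]
    exact (Nat.one_le_div_iff (by omega)).2 h3
  have hk2 : D * k ≤ n := by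
    rw [hk]
    exact Nat.mul_div_le n D
  have hk3 : n ≤ 2 * D * k := by
    have h4 : n < D * (n / D + 1) := Nat.lt_mul_div_succ n (by omega)
    rw [← hk] at h4
    nlinarith
  refine ⟨K, k, hK3, hk1, hk2, ?_, ?_⟩
  · have h4 : (K : ℝ) ^ (T + 1) ≤ (n : ℝ) ^ 2 / M := by
      calc (K : ℝ) ^ (T + 1) ≤ (y / M) ^ (T + 1) :=
            pow_le_pow_left₀ (Nat.cast_nonneg _) hK1 _
        _ = (n : ℝ) ^ 2 / M ^ (T + 1) := by rw [div_pow, hyT]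
        _ ≤ (n : ℝ) ^ 2 / M := by
            refine div_le_div_of_nonneg_left (by positivity) hM0 ?_
            calc M = M ^ 1 := (pow_one M).symm
              _ ≤ M ^ (T + 1) := pow_le_pow_right₀ (by linarith) (by omega)
    have h5 : (n : ℝ) ≤ 2 * D * k := by exact_mod_cast hk3
    have h6 : (n : ℝ) ^ 2 ≤ (2 * D * k) ^ 2 := pow_le_pow_left₀ hnr.le h5 2
    have h7 : (d : ℝ) * (C * (K : ℝ) ^ (T + 1)) ≤ (k : ℝ) ^ 2 := by
      calc (d : ℝ) * (C * (K : ℝ) ^ (T + 1)) ≤ d * (C * ((n : ℝ) ^ 2 / M)) := by gcongr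
        _ ≤ d * ((C + 1) * ((n : ℝ) ^ 2 / M)) := by
            have : (0 : ℝ) ≤ (n : ℝ) ^ 2 / M := by positivity
            gcongr
            linarith
        _ = (n : ℝ) ^ 2 / (4 * (D : ℝ) ^ 2) := by
            rw [hM]
            field_simp
        _ ≤ (2 * D * k) ^ 2 / (4 * (D : ℝ) ^ 2) := by gcongr
        _ = (k : ℝ) ^ 2 := by
            field_simp
            ring
    exact_mod_cast h7
  · have h4 : (y / (2 * M)) ^ (2 * T + 1) ≤ (K : ℝ) ^ (2 * T + 1) :=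
      pow_le_pow_left₀ (by positivity) hK4 _
    refine le_trans ?_ h4
    rw [div_pow, hyq, le_div_iff₀ (by positivity)]
    have h5 : (n : ℝ) ^ q = (n : ℝ) ^ p * (n : ℝ) ^ (q - p) := by
      rw [← Real.rpow_add hnr]
      congr 1
      ring
    rw [h5, mul_assoc]
    exact mul_le_mul_of_nonneg_left h2 (Real.rpow_nonneg hnr.le _)

/-- **Growth with every exponent below four.** -/
theorem growth4 {H : ℕ → ℕ∞} (hmono : Monotone H) {R : ℕ → ℕ → Prop}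
    (hW : ∀ T : ℕ, ∃ C : ℕ, ∀ K : ℕ, 2 ≤ K → ∃ L N : ℕ, K ^ (2 * T + 1) ≤ C * N ∧
      L ≤ C * K ^ (T + 1) ∧ R L N)
    (d D : ℕ) (hd : 1 ≤ d) (hD : 1 ≤ D)
    (hT : ∀ k L N : ℕ, 1 ≤ k → d * L ≤ k ^ 2 → R L N → (N : ℕ∞) ≤ H (D * k))
    (p : ℝ) (hp : p < 4) :
    ∃ n0 : ℕ, ∀ n : ℕ, n0 ≤ n → ENNReal.ofReal ((n : ℝ) ^ p) ≤ ((H n : ℕ∞) : ENNReal) := by
  obtain ⟨T, hT0⟩ := exists_nat_gt (2 / (4 - p))
  have h4p : 0 < 4 - p := by linarith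
  have hT1 : p * ((T : ℝ) + 1) < 4 * T + 2 := by
    rw [div_lt_iff₀ h4p] at hT0
    nlinarith
  obtain ⟨C, hC⟩ := hW T
  obtain ⟨n0, h0⟩ := growth4_real T C d D hd hD hT1
  refine ⟨n0, fun n hn => ?_⟩
  obtain ⟨K, k, hK, hk, hkn, hkd, hle⟩ := h0 n hn
  obtain ⟨L, N, hN, hL, hR⟩ := hC K hK
  have h1 : (N : ℕ∞) ≤ H (D * k) := hT k L N hk ((Nat.mul_le_mul_left d hL).trans hkd) hR
  have h2 : (N : ℕ∞) ≤ H n := h1.trans (hmono hkn)
  have h3 : (n : ℝ) ^ p ≤ N := by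
    have h4 : (K : ℝ) ^ (2 * T + 1) ≤ C * N := by exact_mod_cast hN
    have h5 : (0 : ℝ) ≤ (n : ℝ) ^ p := Real.rpow_nonneg (Nat.cast_nonneg _) _
    have h6 : (0 : ℝ) ≤ N := Nat.cast_nonneg _
    have h7 : (n : ℝ) ^ p * ((C : ℝ) + 1) ≤ N * ((C : ℝ) + 1) := by
      refine (hle.trans h4).trans ?_
      nlinarith
    exact le_of_mul_le_mul_right h7 (by positivity)
  calc ENNReal.ofReal ((n : ℝ) ^ p) ≤ ENNReal.ofReal (N : ℝ) := ENNReal.ofReal_le_ofReal h3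
    _ = ((N : ℕ∞) : ENNReal) := by simp
    _ ≤ ((H n : ℕ∞) : ENNReal) := ENat.toENNReal_le.2 h2

end Pool.Agent.Lib.MP_95e7ec_an.Hn
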