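import Mathlib
import Pool.Agent.Lib.MP_95e7ec_an.Pw.C2Main
import Pool.Agent.Lib.MP_95e7ec_an.Ww.Final
import Pool.Agent.Lib.MP_95e7ec_an.Dy.DMain
import Pool.Agent.Lib.MP_95e7ec_an.Hn.Growth4

/-!
# The Hilbert numbers grow faster than every power `n ^ p` with `p < 4`

The words of `Ww.Final`, their realisation by periodic scalar equations (`Dy.DMain`) and the transfer
to the plane (`Pw.C2Main`).
-/

set_option autoImplicit false

open Set Filter Topology Pool.Agent.MP95e7W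

namespace Pool.Agent.Lib.MP_95e7ec_an.Hn

open Pool.Agent.Lib.MP_95e7ec_an.Pw Pool.Agent.Lib.MP_95e7ec_an.Dy

/-- There is a word with `L` letters of positive exponents and `N` alternations. -/
def HasWord (L N : ℕ) : Prop :=
  ∃ (l : List (ℝ × ℝ)) (z : ℕ → ℝ), l.length = L ∧ (∀ p ∈ l, 0 < p.1) ∧
    (∀ i < N, z i < z (i + 1)) ∧
    ∀ i ≤ N, 0 < z i ∧ Ok l (z i) ∧ 0 < (-1) ^ i * (wd l (z i) - z i)

/-- A word with `L` letters and `N` alternations gives `N` limit cycles in degree `7 k` as soon as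
`8 L ≤ k ^ 2`. -/
theorem HasWord.hilbert {k L N : ℕ} (hk : 1 ≤ k) (h : 8 * L ≤ k ^ 2) (hw : HasWord L N) :
    (N : ℕ∞) ≤ hilbertNumber (7 * k) := by
  obtain ⟨l, z, hL, hpos, hz, h1⟩ := hw
  have hl : 1 ≤ l.length := by
    rcases l with _ | ⟨p, l⟩
    · have h2 := (h1 0 (Nat.zero_le _)).2.2
      simp [wd] at h2
    · simp
  obtain ⟨p, r, s, y, hp, hr, hs, hy, hord, hsign⟩ := dyn_main l N z hl hpos
    (fun i hi => ⟨(h1 i hi).1, (h1 i hi).2.1⟩) hz fun i hi => (h1 i hi).2.2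
  rw [hL] at hp hr hs
  exact partC2 k N hk p (fun _ => 0) r s (IsTrig.mono h hp) (IsTrig.const _ 0) (IsTrig.mono h hr)
    (IsTrig.mono h hs) y (fun i hi x hx => (hy i hi x hx).2.2) hord hsign

private theorem four_mono : Monotone hilbertNumber := by
  intro n m h
  unfold hilbertNumber
  refine iSup_le fun P => iSup_le fun Q => iSup_le fun hP => iSup_le fun hQ => ?_
  exact le_iSup_of_le P (le_iSup_of_le Q (le_iSup_of_le (hP.trans h)
    (le_iSup_of_le (hQ.trans h) le_rfl)))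

/-- **Growth of the Hilbert numbers.** For every `p < 4`: `n ^ p ≤ H_n` for all large `n`. -/
theorem hilbert_growth (p : ℝ) (hp : p < 4) : ∃ n0 : ℕ, ∀ n : ℕ, n0 ≤ n →
    ENNReal.ofReal ((n : ℝ) ^ p) ≤ ((hilbertNumber n : ℕ∞) : ENNReal) := by
  refine growth4 four_mono (R := HasWord) (fun T => ?_) 8 7 (by norm_num) (by norm_num)
    (fun k L N hk h hw => hw.hilbert hk h) p hp
  obtain ⟨C, hC⟩ := Ww.words T
  refine ⟨C, fun K hK => ?_⟩
  obtain ⟨N, l, z, h1, h2, h3, h4, h5⟩ := hC K hK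
  exact ⟨l.length, N, h1, h2, l, z, rfl, h3, fun i _ => h4 i (i + 1) (Nat.lt_succ_self i), h5⟩

end Pool.Agent.Lib.MP_95e7ec_an.Hn
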